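import Pool.Agent.P.MP_de3acd_gt.FH.Final2

/-!
A Hamiltonian diffeomorphism of a closed aspherical six-manifold with rational symplectic class
whose barcode entropy is strictly smaller than its topological entropy. The regular data and the
coherent orientations used in the definition of the barcode entropy exist.
-/

namespace Pool.Agent.Results.MP_de3acd_gt.BarcodeEntropy

open Pool.Agent.P.MP_de3acd_gt

theorem result : ∃ (Γ : Subgroup (Equiv.Perm E)) (hΓ : Good Γ) (H : ℝ → E → ℝ) (φ : E → E)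
    (f : Q Γ → Q Γ), Gen Γ H φ ∧ (∀ t, H (t + 1) = H t) ∧ (∀ z, f (pr Γ z) = pr Γ (φ z)) ∧
      (∀ k ≥ 1, ∀ δ > 0, (near Γ H k δ).Nonempty) ∧
        ∀ (𝔽 : Type) [Field 𝔽], hbar 𝔽 Γ H < htop hΓ f :=
  final₂

end Pool.Agent.Results.MP_de3acd_gt.BarcodeEntropy
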